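import Pool.Agent.MP_3ce0a0_al.Q2T8.Mink
import Pool.Agent.MP_3ce0a0_al.H3.Cut
import Pool.Agent.MP_3ce0a0_al.H15.Tree
import Pool.Agent.MP_3ce0a0_al.H21.QA
import Pool.Agent.MP_3ce0a0_al.H62.Comp
import Pool.Agent.MP_3ce0a0_al.H70.Fix
import Pool.Agent.MP_3ce0a0_al.H76.RBD
import Pool.Agent.MP_3ce0a0_al.H16.RC
import Pool.Agent.MP_3ce0a0_al.H87.Real
import Pool.Agent.MP_3ce0a0_al.H5.XGeoK

/-! Torsion subgroups of the outer automorphism group of a free group are finite. -/

namespace Pool.Agent.MP_3ce0a0_al.Q2T8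

open Pool.Agent.MP_3ce0a0_al.H79 Pool.Agent.MP_3ce0a0_al.H79.X Pool.Agent.MP_3ce0a0_al.H81
open Pool.Agent.MP_3ce0a0_al.H79.X.GK Module

theorem real : SReal :=
  H87.sreal H3.scut H15.stree H21.sqa H62.sra (H76.srb H70.sfix (H62.scomp H70.sfix))
    (H16.src H70.sfix (H62.scomp H70.sfix)) (H76.srd H70.sfix (H62.scomp H70.sfix))

/-- an outer automorphism of finite order that acts trivially on the homology is trivial. -/
theorem bt {m : ℕ} (hm : 2 ≤ m) (α : MulAut (FG m))
    (hg : IsOfFinOrder (QuotientGroup.mk α : Out (FG m))) (h1 : ∀ x, ab (α x) = ab x) :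
    (QuotientGroup.mk α : Out (FG m)) = 1 := by
  classical
  obtain ⟨π, hπ⟩ := H21.srep m
  set g : Out (FG m) := QuotientGroup.mk α with hgd
  have : Finite (Subgroup.zpowers g) := finite_zpowers.2 hg
  obtain ⟨V, E, _, _, _, _, o, t, j, ⟨ho, ht, ⟨v₀⟩, hl, hval, hj, hc, hμ, hf⟩, -⟩ :=
    real (Subgroup.zpowers g) m hm π (Subgroup.zpowers g).subtype hπ
  let a : Subgroup.zpowers g := ⟨g, Subgroup.mem_zpowers g⟩
  have hπ1 : (π g : HV m →ₗ[ℂ] HV m) = LinearMap.id :=
    H21.ext_ab fun x => (hπ α x).trans (h1 x)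
  have htop : (QP j fun _ => True) = ⊤ := eq_top_iff.2 fun _ _ _ _ => trivial
  have hid : ∀ h ∈ (QP j fun _ => True), (π g : HV m →ₗ[ℂ] HV m) h = h := fun h _ => by
    rw [hπ1]; rfl
  obtain ⟨v, -, hv⟩ := lef_fix (gV := MulAction.toPerm a) (gE := MulAction.toPerm a)
    (μ := (π g : HV m →ₗ[ℂ] HV m))
    (iV := fun _ => True) (iE := fun _ => True) hj hc (ho a) (ht a) (hμ a)
    (fun _ _ => ⟨trivial, trivial⟩) (fun _ => Iff.rfl) (fun _ => Iff.rfl) ⟨v₀, trivial⟩
    (fun u v _ _ => hl u v) (by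
      rw [trOn_id hid, htop, finrank_top]
      intro h
      have : finrank ℂ (HV m) = 1 := by exact_mod_cast h
      rw [finrank_fin_fun] at this
      omega)
  obtain ⟨k1, k2⟩ := triv (gV := MulAction.toPerm a) (gE := MulAction.toPerm a)
    (μ := (π g : HV m →ₗ[ℂ] HV m))
    (iV := fun _ => True) (iE := fun _ => True) hj hc (ho a) (ht a) (hμ a)
    (fun _ _ => ⟨trivial, trivial⟩) (fun _ => Iff.rfl) (fun _ => Iff.rfl)
    (fun u v _ _ => hl u v) hid trivial hv
  have hall := GrAux.gr3 o t (fun u => ¬ a • u = u) (fun e => ¬ a • e = e)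
    (fun e he h => he.elim (fun k => k (by rw [← ho, h])) fun k => k (by rw [← ht, h])) hl
    ⟨v, not_not.2 hv⟩ hval fun c c1 c2 => by
      obtain ⟨c', h3, h4⟩ := GrAux.gr1 o t (fun u => a • u = u) (fun e => a • e = e) c
        (fun u hu => by by_contra k; exact hu (c2 u k))
        fun u w hu hw => (lnk_symm (k1 u trivial hu)).trans (k1 w trivial hw)
      obtain ⟨h, rfl⟩ := (hc c').2 h3
      funext e
      by_contra k
      exact c1 e k (k2 h (fun _ _ => trivial) e (by rw [h4 e (c1 e k)]; exact k))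
  exact hf a fun e => not_not.1 (hall e)

/-- the integral homology class of a word. -/
noncomputable def az {m : ℕ} (x : FG m) : Fin m → ℤ :=
  Multiplicative.toAdd
    (FreeGroup.lift (fun i => Multiplicative.ofAdd (Pi.single i (1 : ℤ) : Fin m → ℤ)) x)

theorem az_mul {m : ℕ} (x y : FG m) : az (x * y) = az x + az y := by simp [az]

theorem az_one {m : ℕ} : az (1 : FG m) = 0 := by simp [az]

theorem az_inv {m : ℕ} (x : FG m) : az x⁻¹ = -az x := by simp [az]

theorem az_of {m : ℕ} (i : Fin m) : az (FreeGroup.of i) = Pi.single i 1 := by simp [az]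

theorem ab_eq {m : ℕ} (x : FG m) : ab x = fun i => (az x i : ℂ) := by
  induction x using FreeGroup.induction_on with
  | C1 => rw [H21.ab_one, az_one]; funext i; simp
  | of i => rw [H21.ab_of, az_of]; funext l; simp [Pi.single_apply]
  | inv_of i hi => rw [H21.ab_inv, az_inv, hi]; funext l; simp
  | mul x y hx hy => rw [H21.ab_mul, az_mul, hx, hy]; funext l; simp

/-- the action on the integral homology. -/
noncomputable def Lz {m : ℕ} (α : MulAut (FG m)) : Module.End ℤ (Fin m → ℤ) :=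
  Fintype.linearCombination ℤ fun i => az (α (FreeGroup.of i))

theorem Lz_az {m : ℕ} (α : MulAut (FG m)) (x : FG m) : Lz α (az x) = az (α x) := by
  induction x using FreeGroup.induction_on with
  | C1 => rw [map_one, az_one, map_zero]
  | of i => rw [az_of, Lz, Fintype.linearCombination_apply_single, one_smul]
  | inv_of i hi => rw [az_inv, map_neg, hi, map_inv, az_inv]
  | mul x y hx hy => rw [az_mul, map_add, hx, hy, map_mul, az_mul]

theorem ext_az {m : ℕ} {f g : Module.End ℤ (Fin m → ℤ)} (h : ∀ x, f (az x) = g (az x)) :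
    f = g := by
  refine (Pi.basisFun ℤ (Fin m)).ext fun i => ?_
  rw [Pi.basisFun_apply, ← az_of]
  exact h _

theorem Lz_pow {m : ℕ} (α : MulAut (FG m)) (k : ℕ) : Lz (α ^ k) = Lz α ^ k := by
  induction k with
  | zero => exact ext_az fun x => by simp [Lz_az]
  | succ k ih => exact ext_az fun x => by rw [pow_succ, pow_succ, ← ih]; simp [Lz_az]

theorem Lz_conj {m : ℕ} (y : FG m) : Lz (MulAut.conj y) = 1 := ext_az fun x => by
  rw [Lz_az, MulAut.conj_apply, az_mul, az_mul, az_inv, Module.End.one_apply]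
  abel

theorem small {m : ℕ} (hm : ¬ 2 ≤ m) (α : MulAut (FG m)) (h : ∀ x, az (α x) = az x) : α = 1 := by
  have sub : Subsingleton (Fin m) := Fin.subsingleton_iff_le_one.2 (by omega)
  have key : ∀ (i : Fin m) (x : FG m), x = FreeGroup.of i ^ az x i := by
    intro i x
    induction x using FreeGroup.induction_on with
    | C1 => simp [az_one]
    | of l => rw [Subsingleton.elim l i, az_of]; simp
    | inv_of l hl => rw [az_inv, Pi.neg_apply, zpow_neg, ← hl]
    | mul x y hx hy => rw [az_mul, Pi.add_apply, zpow_add, ← hx, ← hy]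
  have : α.toMonoidHom = MonoidHom.id _ := FreeGroup.ext_hom _ _ fun i => by
    change α _ = FreeGroup.of i
    rw [key i (α _), h, ← key]
  exact MulEquiv.ext fun x => DFunLike.congr_fun this x

/-- the level three congruence subgroup is torsion free. -/
theorem level3 {m : ℕ} (α : MulAut (FG m))
    (hg : IsOfFinOrder (QuotientGroup.mk α : Out (FG m))) (h : Cg 3 (Lz α)) :
    (QuotientGroup.mk α : Out (FG m)) = 1 := by
  obtain ⟨k, hk, h1⟩ := isOfFinOrder_iff_pow_eq_one.1 hg
  rw [← QuotientGroup.mk_pow, QuotientGroup.eq_one_iff] at h1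
  obtain ⟨y, hy⟩ := h1
  have h2 : Lz α = 1 := by
    refine mink (fun v hv => ?_) (fun v hv => ?_) k hk _ (by rw [← Lz_pow, ← hy, Lz_conj]) h
    · exact (smul_eq_zero.1 hv).resolve_left (by norm_num)
    · funext i
      by_contra hi
      obtain ⟨w, hw⟩ := hv (v i).natAbs
      have d : (3 : ℤ) ^ (v i).natAbs ∣ v i := ⟨w i, congrFun hw i⟩
      have := Nat.le_of_dvd (Int.natAbs_pos.2 hi) (Int.natAbs_dvd_natAbs.2 d)
      rw [Int.natAbs_pow] at this
      exact absurd this (not_le.2 (Nat.lt_pow_self (by norm_num)))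
  have h3 : ∀ x, az (α x) = az x := fun x => by rw [← Lz_az, h2]; rfl
  by_cases hm : 2 ≤ m
  · exact bt hm α hg fun x => by rw [ab_eq, ab_eq, h3]
  · rw [small hm α h3]; rfl

theorem tf_fin (m : ℕ) (H : Subgroup (Out (FG m))) (hH : ∀ h ∈ H, IsOfFinOrder h) :
    Finite H := by
  let f : H → Fin m → Fin m → ZMod 3 := fun θ i j =>
    (az ((Quotient.out θ.1 : MulAut (FG m)) (FreeGroup.of i)) j : ZMod 3)
  refine Finite.of_injective f fun θ θ' e => ?_
  set α : MulAut (FG m) := Quotient.out θ.1 with hα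
  set α' : MulAut (FG m) := Quotient.out θ'.1 with hα'
  have k1 : ∀ x, ∃ w, az (α' x) = az (α x) + (3 : ℤ) • w := by
    intro x
    induction x using FreeGroup.induction_on with
    | C1 => exact ⟨0, by simp⟩
    | of i =>
      have : ∀ j, ∃ c, az (α' (FreeGroup.of i)) j - az (α (FreeGroup.of i)) j = 3 * c := fun j =>
        (ZMod.intCast_eq_intCast_iff_dvd_sub _ _ 3).1 (congrFun (congrFun e i) j)
      choose w hw using this
      refine ⟨w, funext fun j => ?_⟩
      have := hw j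
      rw [Pi.add_apply, Pi.smul_apply, smul_eq_mul]
      omega
    | inv_of i hi =>
      obtain ⟨w, hw⟩ := hi
      exact ⟨-w, by rw [map_inv, map_inv, az_inv, az_inv, hw]; module⟩
    | mul x y hx hy =>
      obtain ⟨w, hw⟩ := hx
      obtain ⟨z, hz⟩ := hy
      exact ⟨w + z, by rw [map_mul, map_mul, az_mul, az_mul, hw, hz]; module⟩
  have k2 : Cg 3 (Lz (α' * α⁻¹)) := by
    have sp : ∀ v : Fin m → ℤ, v ∈ Submodule.span ℤ (Set.range (Pi.basisFun ℤ (Fin m))) :=
      fun v => by rw [Basis.span_eq]; trivial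
    intro v
    induction sp v using Submodule.span_induction with
    | mem _ h =>
      obtain ⟨i, rfl⟩ := h
      obtain ⟨w, hw⟩ := k1 (α⁻¹ (FreeGroup.of i))
      refine ⟨w, ?_⟩
      rw [Pi.basisFun_apply, ← az_of, Lz_az, MulAut.mul_apply, hw, MulAut.apply_inv_self]
    | zero => exact ⟨0, by simp⟩
    | add x y _ _ hx hy =>
      obtain ⟨w, hw⟩ := hx
      obtain ⟨z, hz⟩ := hy
      exact ⟨w + z, by rw [map_add, hw, hz]; module⟩
    | smul c x _ hx =>
      obtain ⟨w, hw⟩ := hx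
      exact ⟨c • w, by rw [map_smul, hw]; module⟩
  have k3 : (QuotientGroup.mk (α' * α⁻¹) : Out (FG m)) = θ'.1 * θ.1⁻¹ := by
    rw [QuotientGroup.mk_mul, QuotientGroup.mk_inv, hα, hα', QuotientGroup.out_eq',
      QuotientGroup.out_eq']
  have k4 := level3 (α' * α⁻¹) (k3 ▸ hH _ (H.mul_mem θ'.2 (H.inv_mem θ.2))) k2
  rw [k3, mul_inv_eq_one] at k4
  exact Subtype.ext k4.symm

end Pool.Agent.MP_3ce0a0_al.Q2T8
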