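import Pool.Agent.MP_3ce0a0_al.Q2T8.Wall
import Pool.Agent.MP_3ce0a0_al.Q2T8.TF

/-! Virtually free groups act on trees with finite stabilisers; torsion subgroups of the outer
automorphism group of a free group of finite rank are finite. -/

namespace Pool.Agent.MP_3ce0a0_al.Q2T8

open Pool.Agent.MP_3ce0a0_al.H79 Pool.Agent.MP_3ce0a0_al.H70 Pool.Agent.MP_3ce0a0_al.Q2T1

theorem finite_of_fg (α : Type) [h : Group.FG (FreeGroup α)] : Finite α := by
  classical
  let φ : α → FreeGroup α →* Multiplicative ℤ := fun a =>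
    FreeGroup.lift fun b => if b = a then Multiplicative.ofAdd 1 else 1
  have fin : ∀ x : FreeGroup α, {a | φ a x ≠ 1}.Finite := by
    intro x
    induction x using FreeGroup.induction_on with
    | C1 => simp
    | of b =>
      refine (Set.finite_singleton b).subset fun a ha => ?_
      by_contra c
      exact ha (by simp only [φ, FreeGroup.lift_apply_of]; exact if_neg fun k => c k.symm)
    | inv_of b hb => simpa using hb
    | mul x y hx hy =>
      refine (hx.union hy).subset fun a ha => ?_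
      by_contra c
      simp only [Set.mem_union, Set.mem_ofPred_eq, not_or, not_not] at c
      exact ha (by rw [map_mul, c.1, c.2, mul_one])
  obtain ⟨S, hS, hf⟩ := Group.fg_iff.1 h
  rw [← Set.finite_univ_iff]
  refine (hf.biUnion fun x _ => fin x).subset fun a _ => ?_
  by_contra c
  simp only [Set.mem_iUnion, Set.mem_ofPred_eq, not_exists, not_not] at c
  have : (φ a).ker = ⊤ := by
    rw [eq_top_iff, ← hS, Subgroup.closure_le]
    exact fun x hx => c x hx
  have h1 : φ a (FreeGroup.of a) = 1 := by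
    rw [← MonoidHom.mem_ker, this]; trivial
  simp [φ] at h1

/-- a finitely generated free group has a finite basis. -/
theorem exists_rank (V : Type) [Group V] [IsFreeGroup V] [Group.FG V] :
    ∃ m, Nonempty (FG m ≃* V) := by
  let e := IsFreeGroup.toFreeGroup V
  have : Group.FG (FreeGroup (IsFreeGroup.Generators V)) :=
    Group.fg_of_surjective (f := e.toMonoidHom) e.surjective
  have := finite_of_fg (IsFreeGroup.Generators V)
  obtain ⟨m, ⟨b⟩⟩ := Finite.exists_equiv_fin (IsFreeGroup.Generators V)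
  exact ⟨m, ⟨((e.trans (FreeGroup.freeGroupCongr b))).symm⟩⟩

/-- isomorphic groups have isomorphic outer automorphism groups. -/
theorem exists_outHom {V W : Type} [Group V] [Group W] (e : V ≃* W) :
    ∃ φ : Out V →* Out W, Function.Injective φ ∧
      ∀ α : MulAut V, φ (QuotientGroup.mk α) = QuotientGroup.mk (MulAut.congr e α) := by
  have key : ∀ α : MulAut V, α ∈ Inn V ↔ MulAut.congr e α ∈ Inn W := by
    intro α
    constructor
    · rintro ⟨x, rfl⟩
      exact ⟨e x, by ext y; simp [MulAut.congr]⟩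
    · rintro ⟨y, hy⟩
      refine ⟨e.symm y, MulEquiv.ext fun x => e.injective ?_⟩
      have := DFunLike.congr_fun hy (e x)
      simpa [MulAut.congr] using this
  refine ⟨QuotientGroup.map (Inn V) (Inn W) (MulAut.congr e).toMonoidHom fun α h => (key α).1 h,
    ?_, fun α => rfl⟩
  rw [injective_iff_map_eq_one]
  intro θ h
  obtain ⟨α, rfl⟩ := QuotientGroup.mk_surjective θ
  exact (QuotientGroup.eq_one_iff α).2 ((key α).2 ((QuotientGroup.eq_one_iff _).1 h))

/-- (TF) torsion subgroups of `Out V` are finite. -/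
theorem tf (V : Type) [Group V] [IsFreeGroup V] [Group.FG V] (H : Subgroup (Out V))
    (hH : ∀ h ∈ H, IsOfFinOrder h) : Finite H := by
  obtain ⟨m, ⟨e⟩⟩ := exists_rank V
  obtain ⟨φ, hφ, -⟩ := exists_outHom e.symm
  have := tf_fin m (H.map φ) (by rintro _ ⟨h, hh, rfl⟩; exact φ.isOfFinOrder (hH h hh))
  exact Finite.of_equiv _ (H.equivMapOfInjective φ hφ).symm.toEquiv

/-- (TF) for a group of automorphisms: if every element has an inner power then the inner
elements have finite index. -/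
theorem tf_hom {K V : Type} [Group K] [Group V] [IsFreeGroup V] [Group.FG V] (ψ : K →* MulAut V)
    (h : ∀ k, ∃ j : ℕ, 0 < j ∧ ∃ v, ∀ x, ψ (k ^ j) x = v * x * v⁻¹) :
    ((Inn V).comap ψ).FiniteIndex := by
  let ρ : K →* Out V := (QuotientGroup.mk' (Inn V)).comp ψ
  have e : (Inn V).comap ψ = ρ.ker := by
    rw [← MonoidHom.comap_ker, QuotientGroup.ker_mk']
  have : Finite ρ.range := tf V _ (by
    rintro _ ⟨k, rfl⟩
    obtain ⟨j, hj, v, hv⟩ := h k
    refine isOfFinOrder_iff_pow_eq_one.2 ⟨j, hj, ?_⟩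
    rw [← map_pow, ← MonoidHom.mem_ker, ← e]
    exact ⟨v, MulEquiv.ext fun x => (hv x).symm⟩)
  rw [e]
  infer_instance

/-- the conclusion of (KPS): no inversion, `N` acts freely with finite quotient, stabilisers are
finite, and there is no leaf unless `N` is trivial. -/
structure Kps {E : Type} [Group E] (N : Subgroup E) (X : Type) [MetricSpace X] [MulAction E X] :
    Prop where
  ne : Nonempty X
  noInv : NoInv X (⊤ : Subgroup E)
  free : ∀ f ∈ N, ∀ x : X, f • x = x → f = 1
  fin : ∀ x : X, Finite (MulAction.stabilizer E x)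
  cocpt : ∃ R : Set (X × X), R.Finite ∧ ∀ x y : X, dist x y ≤ 1 → ∃ f ∈ N, (f • x, f • y) ∈ R
  noLeaf : N ≠ ⊥ → ∀ x : X, ∃ y z, y ≠ z ∧ dist x y = 1 ∧ dist x z = 1

theorem stab_finite {E X : Type} [Group E] [MulAction E X] (N : Subgroup E) [N.FiniteIndex]
    (x : X) (h : ∀ f ∈ N, f • x = x → f = 1) : Finite (MulAction.stabilizer E x) := by
  refine Finite.of_injective (fun g : MulAction.stabilizer E x => (QuotientGroup.mk g.1 : E ⧸ N))
    fun g g' e => Subtype.ext ?_
  have := h _ (QuotientGroup.eq.1 e) (mul_mem (inv_mem g.2) g'.2 : _ ∈ MulAction.stabilizer E x)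
  exact inv_mul_eq_one.1 this

/-- (KPS) -/
theorem kps {E : Type} [Group E] (N : Subgroup E) [N.Normal] [N.FiniteIndex] [IsFreeGroup N]
    [Group.FG N] : ∃ (X : Type) (_ : MetricSpace X) (_ : IsSimp X) (_ : MulAction E X)
      (_ : IsIsometricSMul E X), Kps N X := by
  by_cases h0 : N = ⊥
  · let i : MulAction E Unit :=
      { smul := fun _ x => x, one_smul := fun _ => rfl, mul_smul := fun _ _ _ => rfl }
    have hd : ∀ x y : Unit, dist x y = 0 := fun x y => dist_self x
    refine ⟨Unit, inferInstance, ?_, i, ⟨fun g => isometry_subsingleton⟩, ⟨⟨()⟩, ?_, ?_, ?_,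
      ⟨Set.univ, Set.finite_univ, fun x y _ => ⟨1, N.one_mem, trivial⟩⟩, fun h => absurd h0 h⟩⟩
    · exact { four := fun x y z w => by simp
              ex_med := fun x y z => ⟨(), by simp [Q2T1.Btw]⟩
              int := fun x y => ⟨0, by simp⟩
              geo := fun x y h => absurd rfl h }
    · intro g _ x h
      rw [hd] at h
      exact absurd h zero_ne_one
    · intro f hf _ _
      rwa [h0] at hf
    · exact fun x => stab_finite N x fun f hf _ => by rwa [h0] at hf
  obtain ⟨m, ⟨e⟩⟩ := exists_rank N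
  let ι : FG m →* E := N.subtype.comp e.toMonoidHom
  have hinj : Function.Injective ι := N.subtype_injective.comp e.injective
  have hr : ι.range = N := by
    rw [MonoidHom.range_comp, MonoidHom.range_eq_top.2 e.surjective, ← MonoidHom.range_eq_map,
      Subgroup.range_subtype]
  obtain ⟨𝒞, h𝒞⟩ := H3.scut E m ι hinj (hr ▸ inferInstance) (hr ▸ inferInstance)
  have htf : ∀ f ∈ ι.range, ∀ j : ℕ, 0 < j → f ^ j = 1 → f = 1 := by
    rintro _ ⟨x, rfl⟩ j hj hx
    rw [← map_pow, map_eq_one_iff _ hinj] at hx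
    rw [(pow_eq_one_iff_left hj.ne').1 hx, map_one]
  have hnt : ∃ f ∈ ι.range, f ≠ 1 := by
    rw [hr]
    exact (Subgroup.bot_or_exists_ne_one N).resolve_left h0
  obtain ⟨V, Ed, iV, iE, o, t, side, hT, hC⟩ := H15.stree E ι.range 𝒞 htf hnt h𝒞
  rw [hr] at hC
  have hs : Sd o t side := hT.2.2.2.2
  have hc := hT.2.2.2.1
  let := wm hs hc
  have hd : ∀ u v : V, dist u v = ((H70.Sep side u v).ncard : ℝ) := fun _ _ => rfl
  have h1 : ∀ {e : Ed} {u v : V}, Jn o t e u v → dist u v = 1 := fun j => by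
    rw [hd, sep_jn hs j, Set.ncard_singleton, Nat.cast_one]
  have h2 : ∀ {u v : V}, dist u v = 1 → ∃ e, Jn o t e u v := fun h =>
    jn_of_one hs hc (by rw [hd] at h; exact_mod_cast h)
  have h3 : ∀ (e : Ed) (v : V), o e = v ∨ t e = v → ∃ w, Jn o t e v w := by
    rintro e _ (rfl | rfl)
    · exact ⟨_, Or.inl ⟨rfl, rfl⟩⟩
    · exact ⟨_, Or.inr ⟨rfl, rfl⟩⟩
  refine ⟨V, this, wm_simp hs hc, iV, ⟨fun g => Isometry.of_dist_eq fun u v => ?_⟩,
    ⟨hT.2.2.1, ?_, hC.1, fun x => stab_finite N x fun f hf => hC.1 f hf x, ?_, fun _ x => ?_⟩⟩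
  · rw [hd, hd, ncard_smul hT]
  · intro g _ x h k
    obtain ⟨e, j⟩ := h2 h
    have j' := j.smul hT g
    rw [k] at j'
    have : g • e = e := by
      have a := sep_jn hs j'
      rw [sep_comm, sep_jn hs j] at a
      exact (Set.singleton_injective a).symm
    rw [(j.fix hT this).1, dist_self] at h
    exact zero_ne_one h
  · obtain ⟨R, hR, hRe⟩ := hC.2.1
    refine ⟨⋃ r ∈ R, ({o r, t r} : Set V) ×ˢ ({o r, t r} : Set V),
      hR.biUnion fun r _ => (Set.toFinite _).prod (Set.toFinite _), fun x y h => ?_⟩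
    have : ∃ e, (o e = x ∨ t e = x) ∧ (o e = y ∨ t e = y) := by
      by_cases c : x = y
      · obtain ⟨e, -, -, he, -⟩ := hC.2.2 x
        exact ⟨e, he, c ▸ he⟩
      · have a : (H70.Sep side x y).ncard ≠ 0 := fun a => c (dist_eq_zero.1 (by rw [hd, a]; simp))
        have b : (H70.Sep side x y).ncard ≤ 1 := by rw [hd] at h; exact_mod_cast h
        obtain ⟨e, j⟩ := jn_of_one hs hc (u := x) (v := y) (by omega)
        exact ⟨e, j.imp And.left And.right, (j.imp And.right And.left).symm⟩
    obtain ⟨e, ex, ey⟩ := this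
    obtain ⟨f, hf, r, hr, rfl⟩ := hRe e
    refine ⟨f⁻¹, N.inv_mem hf, Set.mem_biUnion hr ⟨?_, ?_⟩⟩
    · rw [hT.1, hT.2.1] at ex
      rcases ex with rfl | rfl <;> simp
    · rw [hT.1, hT.2.1] at ey
      rcases ey with rfl | rfl <;> simp
  · obtain ⟨e₁, e₂, hne, a₁, a₂⟩ := hC.2.2 x
    obtain ⟨y, j₁⟩ := h3 _ _ a₁
    obtain ⟨z, j₂⟩ := h3 _ _ a₂
    refine ⟨y, z, ?_, h1 j₁, h1 j₂⟩
    rintro rfl
    exact hne (Set.singleton_injective ((sep_jn hs j₁).symm.trans (sep_jn hs j₂)))

end Pool.Agent.MP_3ce0a0_al.Q2T8
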