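import Mathlib

/-! Automorphisms of finite order that are trivial modulo three. -/

namespace Pool.Agent.MP_3ce0a0_al.Q2T8

variable {A : Type} [AddCommGroup A]

/-- `u` is the identity modulo `c`. -/
def Cg (c : ℤ) (u : Module.End ℤ A) : Prop := ∀ v, ∃ w, u v = v + c • w

theorem Cg.mul {c : ℤ} {u u' : Module.End ℤ A} (h : Cg c u) (h' : Cg c u') : Cg c (u * u') := by
  intro v
  obtain ⟨w, hw⟩ := h' v
  obtain ⟨z, hz⟩ := h (u' v)
  exact ⟨w + z, by rw [Module.End.mul_apply, hz, hw, smul_add, add_assoc]⟩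

theorem Cg.pow {c : ℤ} {u : Module.End ℤ A} (h : Cg c u) (k : ℕ) : Cg c (u ^ k) := by
  induction k with
  | zero => exact fun v => ⟨0, by simp⟩
  | succ k ih => rw [pow_succ]; exact ih.mul h

theorem Cg.down {a : ℕ} {u : Module.End ℤ A} (h : Cg (3 ^ (a + 1)) u) : Cg 3 u := fun v => by
  obtain ⟨w, hw⟩ := h v
  exact ⟨(3 : ℤ) ^ a • w, by rw [hw, smul_smul, pow_succ']⟩

theorem tele {c : ℤ} {u : Module.End ℤ A} {v w : A} (hw : u v = v + c • w) (k : ℕ) :
    (u ^ k) v = v + c • ∑ i ∈ Finset.range k, (u ^ i) w := by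
  induction k with
  | zero => simp
  | succ k ih =>
    rw [pow_succ, Module.End.mul_apply, hw, map_add, ih, Finset.sum_range_succ, smul_add, map_smul,
      add_assoc]

theorem sum_cg {u : Module.End ℤ A} (h : Cg 3 u) (w : A) (k : ℕ) :
    ∃ z, ∑ i ∈ Finset.range k, (u ^ i) w = (k : ℤ) • w + (3 : ℤ) • z := by
  induction k with
  | zero => exact ⟨0, by simp⟩
  | succ k ih =>
    obtain ⟨z, hz⟩ := ih
    obtain ⟨y, hy⟩ := h.pow k w
    refine ⟨z + y, ?_⟩
    rw [Finset.sum_range_succ, hz, hy]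
    push_cast
    module

variable (tf : ∀ v : A, (3 : ℤ) • v = 0 → v = 0)
include tf

theorem tf_pow (a : ℕ) (v : A) (h : (3 : ℤ) ^ a • v = 0) : v = 0 := by
  induction a with
  | zero => simpa using h
  | succ a ih => exact ih (tf _ (by rw [smul_smul, ← pow_succ', h]))

theorem up_coprime {a k : ℕ} {u : Module.End ℤ A} (hk : ¬ 3 ∣ k) (h1 : u ^ k = 1)
    (h : Cg (3 ^ (a + 1)) u) : Cg (3 ^ (a + 2)) u := by
  intro v
  obtain ⟨w, hw⟩ := h v
  have e := tele hw k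
  rw [h1, Module.End.one_apply, left_eq_add] at e
  have e0 := tf_pow tf _ _ e
  obtain ⟨z, hz⟩ := sum_cg h.down w k
  rw [e0] at hz
  obtain ⟨s, t, hst⟩ : IsCoprime (k : ℤ) 3 := by
    have : Nat.Coprime k 3 := ((Nat.Prime.coprime_iff_not_dvd Nat.prime_three).2 hk).symm
    exact_mod_cast Nat.isCoprime_iff_coprime.2 this
  refine ⟨t • w - s • z, ?_⟩
  have hw' : w = (3 : ℤ) • (t • w - s • z) := by
    calc w = (s * k + t * 3) • w - s • (0 : A) := by rw [hst]; simp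
      _ = _ := by rw [hz]; module
  rw [hw, pow_succ (3 : ℤ) (a + 1), mul_smul, ← hw']

theorem up_three {a : ℕ} {u : Module.End ℤ A} (h1 : u ^ 3 = 1)
    (h : Cg (3 ^ (a + 1)) u) : Cg (3 ^ (a + 2)) u := by
  intro v
  obtain ⟨w, hw⟩ := h v
  have e := tele hw 3
  rw [h1, Module.End.one_apply, left_eq_add] at e
  have e0 := tf_pow tf _ _ e
  obtain ⟨w1, h1⟩ := h w
  obtain ⟨w2, h2⟩ := h w1
  simp only [Finset.sum_range_succ, Finset.range_zero, Finset.sum_empty, pow_succ, pow_zero,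
    Module.End.mul_apply, Module.End.one_apply, zero_add] at e0
  rw [h1, map_add, map_smul, h1, h2] at e0
  have e1 : w + (3 : ℤ) ^ (a + 1) • w1 + ((3 : ℤ) ^ (a + 1) * 3 ^ a) • w2 = 0 := by
    refine tf _ ?_
    rw [← e0, pow_succ]
    module
  refine ⟨-((3 : ℤ) ^ a • w1) - ((3 : ℤ) ^ a * 3 ^ a) • w2, ?_⟩
  have hw' : w = (3 : ℤ) • (-((3 : ℤ) ^ a • w1) - ((3 : ℤ) ^ a * 3 ^ a) • w2) := by
    rw [← sub_eq_zero, ← e1, pow_succ]
    module
  rw [hw, pow_succ (3 : ℤ) (a + 1), mul_smul, ← hw']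

/-- Minkowski's lemma. -/
theorem mink (sep : ∀ v : A, (∀ a : ℕ, ∃ w, v = (3 : ℤ) ^ a • w) → v = 0) (k : ℕ) (hk : 0 < k)
    (u : Module.End ℤ A) (h1 : u ^ k = 1) (h : Cg 3 u) : u = 1 := by
  have fin : ∀ u : Module.End ℤ A, Cg 3 u → (∀ a, Cg (3 ^ (a + 1)) u → Cg (3 ^ (a + 2)) u) →
      u = 1 := by
    intro u h0 hs
    have : ∀ a, Cg (3 ^ (a + 1)) u := fun a => by
      induction a with
      | zero => simpa using h0
      | succ a ih => exact hs a ih
    ext v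
    rw [Module.End.one_apply, ← sub_eq_zero]
    refine sep _ fun a => ?_
    obtain ⟨w, hw⟩ := this a v
    exact ⟨(3 : ℤ) • w, by rw [hw, smul_smul, ← pow_succ, add_sub_cancel_left]⟩
  induction k using Nat.strong_induction_on with
  | _ k ih =>
    by_cases h3 : 3 ∣ k
    · obtain ⟨l, rfl⟩ := h3
      refine ih l (by omega) (by omega) (fin _ (h.pow l) fun a => up_three tf ?_)
      rw [← pow_mul, mul_comm, h1]
    · exact fin u h fun a => up_coprime tf h3 h1

end Pool.Agent.MP_3ce0a0_al.Q2T8
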