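import Pool.Agent.MP_3ce0a0_al.H70.Fix
import Pool.Agent.MP_3ce0a0_al.Q2T1.Defs

/-! The metric of a tree that is given by oriented edges and their sides. -/

namespace Pool.Agent.MP_3ce0a0_al.Q2T8

open Pool.Agent.MP_3ce0a0_al.H79 Pool.Agent.MP_3ce0a0_al.H70 Pool.Agent.MP_3ce0a0_al.Q2T1

variable {V Ed : Type} {o t : Ed → V} {side : Ed → Set V}

theorem sep_comm (u v : V) : Sep side u v = Sep side v u := by
  ext e; simp only [H70.Sep, Set.mem_ofPred_eq]; tauto

theorem sep_jn (hs : Sd o t side) {e : Ed} {u w : V} (j : Jn o t e u w) :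
    Sep side u w = {e} := by
  ext d
  refine ⟨fun h => by_contra fun c => h (j.same hs (Ne.symm c)), ?_⟩
  rintro rfl
  exact j.diff hs

variable (hs : Sd o t side) (hc : ∀ u v, Lnk o t (fun _ => True) u v)
include hs hc

theorem eq_of_sep {u v : V} (h : Sep side u v = ∅) : u = v := by
  by_contra c
  obtain ⟨e, -, -, he⟩ := first hs hc c
  rw [h] at he
  exact he

/-- the number of edges that separate. -/
@[reducible] noncomputable def wm : MetricSpace V where
  dist u v := ((Sep side u v).ncard : ℝ)
  dist_self u := by simp [H70.Sep]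
  dist_comm u v := by rw [sep_comm]
  dist_triangle u v w := by
    have h1 : Sep side u w ⊆ Sep side u v ∪ Sep side v w := fun e he => by
      simp only [H70.Sep, Set.mem_ofPred_eq, Set.mem_union] at he ⊢; tauto
    exact_mod_cast (Set.ncard_le_ncard h1
      ((sep_finite hs hc _ _).union (sep_finite hs hc _ _))).trans (Set.ncard_union_le _ _)
  eq_of_dist_eq_zero {u v} h := eq_of_sep hs hc
    ((Set.ncard_eq_zero (sep_finite hs hc _ _)).1 (by exact_mod_cast h))

omit hs hc in
open Classical in
theorem ncard_sum {S : Finset Ed} {u v : V} (h : Sep side u v ⊆ S) :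
    (Sep side u v).ncard = ∑ e ∈ S, if e ∈ Sep side u v then 1 else 0 := by
  rw [← Finset.card_filter, ← Set.ncard_coe_finset]
  congr 1
  ext e
  simp only [Finset.coe_filter, Set.mem_ofPred_eq]
  exact ⟨fun a => ⟨h a, a⟩, fun a => a.2⟩

theorem btw_of {x y z : V} (h : ∀ e ∈ Sep side x y, e ∉ Sep side y z) :
    (Sep side x y).ncard + (Sep side y z).ncard = (Sep side x z).ncard := by
  rw [← Set.ncard_union_eq (Set.disjoint_left.2 h) (sep_finite hs hc _ _) (sep_finite hs hc _ _)]
  congr 1
  ext e
  have := h e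
  simp only [H70.Sep, Set.mem_ofPred_eq, Set.mem_union] at this ⊢
  tauto

theorem four_of {x y z w : V}
    (h : ∀ e, ¬ ((x ∈ side e ↔ z ∈ side e) ∧ (y ∈ side e ↔ w ∈ side e) ∧ e ∈ Sep side x y)) :
    (Sep side x y).ncard + (Sep side z w).ncard ≤ (Sep side x z).ncard + (Sep side y w).ncard := by
  classical
  have fin := (((sep_finite hs hc x y).union (sep_finite hs hc z w)).union
    (sep_finite hs hc x z)).union (sep_finite hs hc y w)
  rw [ncard_sum (S := fin.toFinset) (u := x) (v := y) fun e he => by simp [he],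
    ncard_sum (S := fin.toFinset) (u := z) (v := w) fun e he => by simp [he],
    ncard_sum (S := fin.toFinset) (u := x) (v := z) fun e he => by simp [he],
    ncard_sum (S := fin.toFinset) (u := y) (v := w) fun e he => by simp [he],
    ← Finset.sum_add_distrib, ← Finset.sum_add_distrib]
  refine Finset.sum_le_sum fun e _ => ?_
  have := h e
  simp only [H70.Sep, Set.mem_ofPred_eq] at this ⊢
  by_cases a : x ∈ side e <;> by_cases b : y ∈ side e <;> by_cases c : z ∈ side e <;>
    by_cases d : w ∈ side e <;> simp_all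

theorem step {m w x : V} {e : Ed} (j : Jn o t e m w) (he : e ∈ Sep side m x) :
    (Sep side w x).ncard + 1 = (Sep side m x).ncard := by
  have h1 := btw_of hs hc (x := m) (y := w) (z := x) fun d hd a => by
    rw [sep_jn hs j] at hd
    obtain rfl := hd
    have a3 := j.diff hs
    simp only [H70.Sep, Set.mem_ofPred_eq] at he a
    tauto
  rw [sep_jn hs j, Set.ncard_singleton] at h1
  omega

theorem exists_med (x y z : V) : ∃ m, (∀ e ∈ Sep side x m, e ∉ Sep side m y) ∧
    (∀ e ∈ Sep side y m, e ∉ Sep side m z) ∧ ∀ e ∈ Sep side x m, e ∉ Sep side m z := by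
  let f : V → V → ℕ := fun a b => (Sep side a b).ncard
  have : Nonempty V := ⟨x⟩
  obtain ⟨m, hm⟩ : ∃ m, ∀ w, f m x + f m y + f m z ≤ f w x + f w y + f w z :=
    ⟨Function.argmin fun m => f m x + f m y + f m z, 
      fun w => Function.argmin_le (fun m => f m x + f m y + f m z) w⟩
  have key : ∀ a b c : V, (∀ w, f m a + f m b + f m c ≤ f w a + f w b + f w c) →
      ∀ e ∈ Sep side a m, e ∉ Sep side m b := by
    intro a b c hmin d d1 d2
    have hne : m ≠ a := by
      rintro rfl
      exact d1 Iff.rfl
    obtain ⟨e, w, j, he⟩ := first hs hc hne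
    have he' : e ∈ Sep side m b := by
      by_cases c : e = d
      · exact c ▸ d2
      · have := away hs hc (x := a) (y := b) (d := d) (by
          simp only [H70.Sep, Set.mem_ofPred_eq] at d1 d2; tauto) j c fun k => d1 k.symm
        exact fun k => he (k.trans this.symm)
    have s1 := step hs hc j he
    have s2 := step hs hc j he'
    have s3 : f w c ≤ f w m + f m c := by
      have : (f w c : ℝ) ≤ f w m + f m c := (wm hs hc).dist_triangle w m c
      exact_mod_cast this
    have s4 : f w m = 1 := by
      simp only [f]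
      rw [sep_comm, sep_jn hs j, Set.ncard_singleton]
    have := hmin w
    simp only [f] at this s3 s4
    omega
  exact ⟨m, key x y z hm, key y z x fun w => by have := hm w; omega,
    key x z y fun w => by have := hm w; omega⟩

theorem jn_of_one {u v : V} (h : (Sep side u v).ncard = 1) : ∃ e, Jn o t e u v := by
  have hne : u ≠ v := by
    rintro rfl
    simp [H70.Sep] at h
  obtain ⟨e, w, j, he⟩ := first hs hc hne
  have s := step hs hc j he
  have : w = v := eq_of_sep hs hc ((Set.ncard_eq_zero (sep_finite hs hc _ _)).1 (by omega))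
  exact ⟨e, this ▸ j⟩

theorem wm_simp : @IsSimp V (wm hs hc) := by
  let := wm hs hc
  have hd : ∀ u v : V, dist u v = ((Sep side u v).ncard : ℝ) := fun _ _ => rfl
  have hb : ∀ x y z : V, (∀ e ∈ Sep side x y, e ∉ Sep side y z) → Q2T1.Btw x y z := by
    intro x y z h
    rw [Q2T1.Btw, hd, hd, hd]
    exact_mod_cast btw_of hs hc h
  refine { four := fun x y z w => ?_, ex_med := fun x y z => ?_, int := fun x y => ⟨_, hd x y⟩,
           geo := fun x y h => ?_ }
  · simp only [hd, le_max_iff]
    by_cases h1 : ∀ e, ¬ ((x ∈ side e ↔ z ∈ side e) ∧ (y ∈ side e ↔ w ∈ side e) ∧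
        e ∈ Sep side x y)
    · left
      exact_mod_cast four_of hs hc h1
    · right
      push Not at h1
      obtain ⟨d, d1, d2, d3⟩ := h1
      rw [sep_comm z w]
      refine mod_cast four_of hs hc (z := w) (w := z) ?_
      rintro e ⟨e1, e2, e3⟩
      simp only [H70.Sep, Set.mem_ofPred_eq] at d3 e3
      have hne : e ≠ d := by
        rintro rfl
        tauto
      have j : Jn o t e (o e) (t e) := Or.inl ⟨rfl, rfl⟩
      by_cases c : o e ∈ side d ↔ x ∈ side d
      · have := away hs hc d2 j hne (by tauto)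
        tauto
      · have := away hs hc d1 j hne c
        tauto
  · obtain ⟨m, h1, h2, h3⟩ := exists_med hs hc x y z
    exact ⟨m, hb _ _ _ h1, hb _ _ _ h2, hb _ _ _ h3⟩
  · obtain ⟨e, w, j, he⟩ := first hs hc h
    have s := step hs hc j he
    have s1 : dist x w = 1 := by rw [hd, sep_jn hs j, Set.ncard_singleton, Nat.cast_one]
    refine ⟨w, s1, ?_⟩
    rw [Q2T1.Btw, s1, hd, hd, ← s]
    push_cast
    ring

end Pool.Agent.MP_3ce0a0_al.Q2T8
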